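import Mathlib

set_option autoImplicit false

namespace Pool.Agent.Results.MP_d7084b_al.Yes

open Matrix

variable {n : ℕ}

abbrev Mat (n : ℕ) := Matrix (Fin n) (Fin n) ℂ

/-- The `H`-adjoint `H⁻¹ M^* H`. -/
noncomputable def adj (H M : Mat n) : Mat n := H⁻¹ * Mᴴ * H

/-- The indefinite inner product `[x, y] = (H x)^* y`. -/
noncomputable def form (H : Mat n) (x y : Fin n → ℂ) : ℂ := star (H *ᵥ x) ⬝ᵥ y

/-- `X` is `H`-indecomposable. -/
def Indec (H X : Mat n) : Prop :=
  ∀ W : Submodule ℂ (Fin n → ℂ), (∀ x ∈ W, (∀ y ∈ W, form H x y = 0) → x = 0) →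
    (∀ x ∈ W, X *ᵥ x ∈ W) → (∀ x ∈ W, adj H X *ᵥ x ∈ W) → W = ⊥ ∨ W = ⊤

/-- The selfadjoint factors of `H`-polar decompositions of `X` with commuting factors. -/
def CP (H X : Mat n) : Set (Mat n) :=
  {A | ∃ U, adj H U * U = 1 ∧ adj H A = A ∧ X = U * A ∧ U * A = A * U}

def Eig (U : Mat n) (a : ℂ) : Prop := ∃ v, v ≠ 0 ∧ U *ᵥ v = a • v

noncomputable def Q (U : Mat n) (a : ℂ) : Mat n := (U - a • 1) * (star a • U - 1)

section
variable {H : Mat n} (hd : IsUnit H.det)
include hd

lemma adj_mul (M N : Mat n) : adj H (M * N) = adj H N * adj H M := by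
  simp only [adj, conjTranspose_mul, mul_assoc, mul_nonsing_inv_cancel_left _ _ hd]

lemma adj_one : adj H 1 = 1 := by simp [adj, nonsing_inv_mul _ hd]

lemma form_adj (M : Mat n) (x y : Fin n → ℂ) :
    form H x (M *ᵥ y) = form H (adj H M *ᵥ x) y := by
  simp only [form, adj, mulVec_mulVec, ← mul_assoc, mul_nonsing_inv _ hd, one_mul]
  rw [← mulVec_mulVec, star_mulVec Mᴴ, conjTranspose_conjTranspose, dotProduct_mulVec]

open ComplexOrder in
lemma nondeg {x : Fin n → ℂ} (h : ∀ y, form H x y = 0) : x = 0 := by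
  have : H *ᵥ x = 0 := dotProduct_star_self_eq_zero.1 (h _)
  rw [← one_mulVec x, ← nonsing_inv_mul _ hd, ← mulVec_mulVec, this, mulVec_zero]

lemma adj_Q {U : Mat n} (hU : adj H U * U = 1) (a : ℂ) :
    adj H (Q U a) = adj H U * adj H U * Q U a := by
  have h1 : adj H (U - a • 1) = adj H U - star a • 1 := by
    simp [adj, mul_sub, sub_mul, nonsing_inv_mul _ hd]
  have h2 : adj H (star a • U - 1) = a • adj H U - 1 := by
    simp [adj, mul_sub, sub_mul, nonsing_inv_mul _ hd]
  rw [Q, adj_mul hd, h1, h2]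
  generalize adj H U = V at *
  have h3 : V * (V * (U * U)) = 1 := by rw [← mul_assoc V U U, hU, one_mul, hU]
  have h4 : V * (V * U) = V := by rw [hU, mul_one]
  simp only [mul_sub, sub_mul, mul_assoc, smul_mul_assoc, mul_smul_comm, mul_one, one_mul, h3, h4,
    smul_sub, smul_smul, mul_comm a]
  abel

lemma nil {X U : Mat n} (hi : Indec H X) (hU : adj H U * U = 1) (h1 : Commute U X)
    (h2 : Commute U (adj H X)) {a : ℂ} (ha : Eig U a) : ∃ k, Q U a ^ k = 0 := by
  have cq : ∀ Z, Commute U Z → Commute (Q U a) Z := fun Z h =>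
    (h.sub_left ((Commute.one_left Z).smul_left a)).mul_left
      ((h.smul_left _).sub_left (Commute.one_left Z))
  obtain ⟨k, hk, hc⟩ := ((Filter.eventually_ge_atTop 1).and
    (LinearMap.eventually_isCompl_ker_pow_range_pow (toLin' (Q U a)))).exists
  rw [← toLin'_pow] at hc
  have inv : ∀ Z, Commute U Z → ∀ x ∈ LinearMap.ker (toLin' (Q U a ^ k)),
      Z *ᵥ x ∈ LinearMap.ker (toLin' (Q U a ^ k)) := fun Z h x hx => by
    rw [LinearMap.mem_ker, toLin'_apply] at hx ⊢
    rw [mulVec_mulVec, ((cq Z h).pow_left k).eq, ← mulVec_mulVec, hx, mulVec_zero]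
  have cV : Commute U (adj H U) := (mul_eq_one_comm.1 hU).trans hU.symm
  have hp : ∀ j, adj H (Q U a ^ j) = (adj H U * adj H U) ^ j * Q U a ^ j := by
    intro j
    rw [← (((cq _ cV).mul_right (cq _ cV)).symm).mul_pow, ← adj_Q hd hU]
    induction j with
    | zero => simpa using adj_one hd
    | succ j ih => rw [pow_succ, adj_mul hd, ih, pow_succ']
  rcases hi _ (fun x hx h => nondeg hd fun y => by
      obtain ⟨w, hw, _, ⟨z, rfl⟩, rfl⟩ := Submodule.mem_sup.1 (hc.sup_eq_top ▸ Submodule.mem_top (x := y))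
      have := form_adj hd (Q U a ^ k) x z
      rw [LinearMap.mem_ker, toLin'_apply] at hx
      rw [hp, ← mulVec_mulVec, hx] at this
      have h0 := h w hw
      simp only [form, toLin'_apply, dotProduct_add] at this h0 ⊢
      simp [this, h0]) (inv X h1) (inv _ h2) with h | h
  · obtain ⟨v, v1, v2⟩ := ha
    obtain ⟨j, rfl⟩ : ∃ j, k = j + 1 := ⟨k - 1, by omega⟩
    refine absurd ((Submodule.mem_bot ℂ).1 (h ▸ (?_ : v ∈ LinearMap.ker _))) v1
    rw [LinearMap.mem_ker, toLin'_apply, pow_succ, ← mulVec_mulVec, Q, ← mulVec_mulVec]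
    simp [sub_mulVec, smul_mulVec, mulVec_sub, mulVec_smul, v2, smul_smul, mul_comm]
  · exact ⟨k, toLin'.injective (by rw [LinearMap.ker_eq_top.1 h, map_zero])⟩

end

lemma spec {U : Mat n} {a b : ℂ} {k : ℕ} (h : Q U a ^ k = 0) (hb : Eig U b) :
    b = a ∨ star a * b = 1 := by
  obtain ⟨v, v1, v2⟩ := hb
  have h1 : Q U a *ᵥ v = ((b - a) * (star a * b - 1)) • v := by
    rw [Q, ← mulVec_mulVec]
    simp only [sub_mulVec, smul_mulVec, mulVec_sub, mulVec_smul, v2, smul_smul, one_mulVec]
    module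
  have h2 : ∀ j, Q U a ^ j *ᵥ v = ((b - a) * (star a * b - 1)) ^ j • v := by
    intro j
    induction j with
    | zero => simp
    | succ j ih => rw [pow_succ, ← mulVec_mulVec, h1, mulVec_smul, ih, smul_smul, pow_succ']
  have := h2 k
  rw [h, zero_mulVec, eq_comm, smul_eq_zero, or_iff_left v1] at this
  simpa [sub_eq_zero] using eq_zero_of_pow_eq_zero this

lemma sylv {W U Z : Mat n} {a : ℂ} {k : ℕ} (h : Q U a ^ k = 0) (hz : W * Z = Z * U) :
    Z = 0 ∨ ∃ b, Eig W b ∧ (b = a ∨ star a * b = 1) := by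
  have h1 : Q W a * Z = Z * Q U a := by
    simp only [Q, mul_sub, sub_mul, mul_assoc, smul_mul_assoc, mul_smul_comm, mul_one, one_mul, hz]
    rw [← mul_assoc W Z, hz, mul_assoc]
  have h2 : ∀ j, Q W a ^ j * Z = Z * Q U a ^ j := by
    intro j
    induction j with
    | zero => simp
    | succ j ih => rw [pow_succ, mul_assoc, h1, ← mul_assoc, ih, mul_assoc, pow_succ]
  by_cases c : (Q W a).det = 0
  · right
    rw [Q, det_mul, mul_eq_zero, ← exists_mulVec_eq_zero_iff, ← exists_mulVec_eq_zero_iff] at c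
    rcases c with ⟨v, v1, v2⟩ | ⟨v, v1, v2⟩ <;>
      simp only [sub_mulVec, smul_mulVec, one_mulVec, sub_eq_zero] at v2
    · exact ⟨a, ⟨v, v1, v2⟩, Or.inl rfl⟩
    · have : star a ≠ 0 := by rintro e; rw [e, zero_smul] at v2; exact v1 v2.symm
      exact ⟨(star a)⁻¹, ⟨v, v1, by rw [eq_inv_smul_iff₀ this, v2]⟩, Or.inr (mul_inv_cancel₀ this)⟩
  · left
    have := h2 k
    rw [h, mul_zero] at this
    have u : IsUnit (Q W a ^ k) := ((isUnit_iff_isUnit_det _).2 (Ne.isUnit c)).pow k
    exact u.mul_right_eq_zero.1 this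

lemma arith {a b c : ℂ} (ha : a ≠ 0) (h1 : b = a ∨ star a * b = 1) (h2 : c = a ∨ star a * c = 1)
    (h3 : -c = b ∨ star b * -c = 1) : False := by
  have p := Complex.normSq_pos.2 ha
  have e : star a * a = (Complex.normSq a : ℂ) := (Complex.normSq_eq_conj_mul_self).symm
  have k : ∀ x, (x = a ∨ star a * x = 1) → ∃ r : ℝ, 0 < r ∧ star a * x = r := by
    rintro x (rfl | h)
    · exact ⟨_, p, e⟩
    · exact ⟨1, one_pos, by simpa using h⟩
  obtain ⟨r, r1, r2⟩ := k b h1
  obtain ⟨s, s1, s2⟩ := k c h2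
  rcases h3 with rfl | h
  · have : (r : ℂ) + s = 0 := by rw [← r2, ← s2]; ring
    norm_cast at this; linarith
  · have r3 : a * star b = r := by simpa using congrArg star r2
    have : (r : ℂ) * s + Complex.normSq a = 0 := by
      rw [← r3, ← s2, ← e]; linear_combination (-(star a * a)) * h
    norm_cast at this; nlinarith

theorem result (n : ℕ) (H X : Mat n) (_hH : H.IsHermitian) (hd : IsUnit H.det) (hX : X ≠ 0)
    (hi : Indec H X) (hne : (CP H X).Nonempty) : (CP H X).encard = 2 := by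
  have facts : ∀ A U, adj H U * U = 1 → adj H A = A → X = U * A → U * A = A * U →
      Commute U X ∧ Commute U (adj H X) ∧ U * U * adj H X = X ∧ adj H X * (U * U) = X ∧
      (∀ a, Eig U a → a ≠ 0) := by
    intro A U h1 h2 h3 h4
    have h5 := mul_eq_one_comm.1 h1
    have y : adj H X = A * adj H U := by rw [h3, adj_mul hd, h2]
    have c : U * adj H X = A := by rw [y, ← mul_assoc, h4, mul_assoc, h5, mul_one]
    have d : adj H X * U = A := by rw [y, mul_assoc, h1, mul_one]
    refine ⟨?_, c.trans d.symm, by rw [mul_assoc, c, h3], by rw [← mul_assoc, d, h3, h4], ?_⟩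
    · show U * X = X * U
      rw [h3, mul_assoc, h4]
    · rintro _ ⟨v, v1, v2⟩ rfl
      apply v1
      rw [← one_mulVec v, ← h1, ← mulVec_mulVec, v2, zero_smul, mulVec_zero]
  obtain ⟨A, U, h1, h2, h3, h4⟩ := hne
  have : CP H X = {A, -A} := by
    ext B
    constructor
    · rintro ⟨T, k1, k2, k3, k4⟩
      obtain ⟨u1, u2, -, u4, -⟩ := facts A U h1 h2 h3 h4
      obtain ⟨t1, t2, t3, -, t5⟩ := facts B T k1 k2 k3 k4
      have sq : U * U * X = T * T * X := by
        calc U * U * X = X * (U * U) := (u1.mul_left u1).eq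
          _ = T * T * adj H X * (U * U) := by rw [t3]
          _ = _ := by rw [mul_assoc, u4]
      have : Nonempty (Fin n) := by
        by_contra w
        rw [not_nonempty_iff] at w
        exact hX (Subsingleton.elim _ _)
      obtain ⟨a, ha⟩ := Module.End.exists_eigenvalue (toLin' T)
      obtain ⟨v, hv⟩ := ha.exists_hasEigenvector
      have ea : Eig T a := ⟨v, hv.2, by simpa using hv.apply_eq_smul⟩
      obtain ⟨k, hk⟩ := nil hd hi k1 t1 t2 ea
      have fin : ∀ s : ℂ, s * s = 1 → (s • U + T) * X = 0 → B = -s • A := by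
        intro s s2 h
        have hA : A = X * adj H U := by rw [h3, h4, mul_assoc, mul_eq_one_comm.1 h1, mul_one]
        have e1 : T * X = -s • (U * X) := by
          rw [add_mul, smul_mul_assoc] at h
          rw [neg_smul]; exact eq_neg_of_add_eq_zero_right h
        have e2 : T * A = -s • X := by
          rw [hA, ← mul_assoc, e1, u1.eq, smul_mul_assoc, mul_assoc, mul_eq_one_comm.1 h1, mul_one]
        have e3 : A = -s • B := by
          rw [← one_mul A, ← k1, mul_assoc, e2, k3, mul_smul_comm, ← mul_assoc, k1, one_mul]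
        rw [e3, smul_smul, neg_mul_neg, s2, one_smul]
      have tw : ∀ s : ℂ, s * s = 1 → s • U * ((s • U + T) * X) = (s • U + T) * X * T := by
        intro s s2
        rw [mul_assoc _ X, ← t1.eq]
        simp only [add_mul, mul_add, smul_mul_assoc, mul_smul_comm, smul_smul, s2, one_smul,
          ← mul_assoc, sq]
        rw [add_comm]
      rcases sylv hk (tw 1 (by simp)) with z | ⟨b, b1, b2⟩
      · right; simpa using fin 1 (by simp) z
      rcases sylv hk (tw (-1) (by simp)) with z | ⟨c, ⟨w, c0, c1⟩, c2⟩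
      · left; simpa using fin (-1) (by simp) z
      rw [one_smul] at b1
      obtain ⟨j, hj⟩ := nil hd hi h1 u1 u2 b1
      refine (arith (t5 a ea) b2 c2 (spec hj ⟨w, c0, ?_⟩)).elim
      rw [neg_smul, ← c1]; simp [neg_mulVec]
    · rintro (rfl | rfl)
      · exact ⟨U, h1, h2, h3, h4⟩
      · refine ⟨-U, ?_, ?_, by simpa using h3, by simpa using h4⟩
        · simpa [adj] using h1
        · simpa [adj] using h2
  rw [this, Set.encard_pair]
  intro e
  apply hX
  have : (2 : ℂ) • A = 0 := by rw [two_smul]; exact add_eq_zero_iff_eq_neg.2 e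
  rw [h3, (smul_eq_zero.1 this).resolve_left two_ne_zero, mul_zero]

end Pool.Agent.Results.MP_d7084b_al.Yes
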